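import Pool.Agent.H88.B2.Targets
import Pool.Agent.H61.G.Basic

/-! Board bpd_modules, row ENP: energy of a sum of wave packets
(after Pool/Agent/H68/G/GBE.lean, MP_ee74d2_an). -/

set_option autoImplicit false

namespace Pool.Agent.H45.B2.ENP

open Pool.Agent.H83.G Pool.Agent.H61.G Pool.Agent.H88.B2
open MeasureTheory Set
open scoped ENNReal NNReal RealInnerProductSpace

private theorem few {ι : Type} (B : Finset ι) (f : ι → ℂ) (M : ℕ)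
    (h : (B.filter (fun β => f β ≠ 0)).card ≤ M) :
    ‖∑ β ∈ B, f β‖ₑ ^ 2 ≤ M * ∑ β ∈ B, ‖f β‖ₑ ^ 2 := by
  classical
  have h1 : ∑ β ∈ B, f β = ∑ β ∈ B.filter (fun β => f β ≠ 0), f β :=
    (Finset.sum_filter_ne_zero B).symm
  have h2 : ∀ x : ℂ, ‖x‖ₑ ^ 2 = ENNReal.ofReal (‖x‖ ^ 2) := by
    intro x
    rw [← ofReal_norm, ENNReal.ofReal_pow (norm_nonneg _)]
  simp_rw [h2]
  rw [← ENNReal.ofReal_sum_of_nonneg (fun β _ => by positivity), ← ENNReal.ofReal_natCast,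
    ← ENNReal.ofReal_mul (Nat.cast_nonneg M)]
  apply ENNReal.ofReal_le_ofReal
  calc ‖∑ β ∈ B, f β‖ ^ 2 = ‖∑ β ∈ B.filter (fun β => f β ≠ 0), f β‖ ^ 2 := by rw [h1]
    _ ≤ (∑ β ∈ B.filter (fun β => f β ≠ 0), ‖f β‖) ^ 2 :=
        pow_le_pow_left₀ (norm_nonneg _) (norm_sum_le _ _) 2
    _ ≤ ((B.filter (fun β => f β ≠ 0)).card : ℝ) * ∑ β ∈ B.filter (fun β => f β ≠ 0), ‖f β‖ ^ 2 :=
        sq_sum_le_card_mul_sum_sq
    _ ≤ (M : ℝ) * ∑ β ∈ B, ‖f β‖ ^ 2 := by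
        apply mul_le_mul (by exact_mod_cast h) _ (by positivity) (Nat.cast_nonneg M)
        exact Finset.sum_le_sum_of_subset_of_nonneg (Finset.filter_subset _ _)
          (fun β _ _ => by positivity)

private theorem planch (hPLN : T_PLN) {m : ℕ} {G : Z m → ℂ} (hG : TC G) :
    ∫⁻ z, ‖TF G z‖ₑ ^ 2 = ∫⁻ ζ, ‖G ζ‖ₑ ^ 2 := by
  obtain ⟨h1, h2⟩ := hPLN m G hG
  rw [h1, h2]

private theorem orth (hPLN : T_PLN) (hPUS : T_PUS) (m : ℕ) : ∃ Co : ℕ, ∀ (R : ℝ)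
    (G' : (Fin m → ℤ) → Z m → ℂ) (I : Finset (Fin m → ℤ)), 1 ≤ R → (∀ k ∈ I, TC (G' k)) →
    (∀ k ∈ I, ∀ ζ, G' k ζ ≠ 0 → ‖ζ.1⁻¹ • ζ.2.1 - ctr (sR R) k‖ ≤ 2 * sR R) →
    ∫⁻ z, ‖∑ k ∈ I, TF (G' k) z‖ₑ ^ 2 ≤ Co * ∑ k ∈ I, ∫⁻ z, ‖TF (G' k) z‖ₑ ^ 2 := by
  classical
  obtain ⟨-, -, C, hC, -, h5, -⟩ := hPUS m
  refine ⟨⌈C * (1 + 2) ^ m⌉₊, ?_⟩
  intro R G' I hR hT hs
  have hs0 := sR_pos hR
  have h1 : ∫⁻ z, ‖∑ k ∈ I, TF (G' k) z‖ₑ ^ 2 = ∫⁻ ζ, ‖∑ k ∈ I, G' k ζ‖ₑ ^ 2 := by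
    rw [← planch hPLN (tc_sum hT)]
    refine lintegral_congr fun z => ?_
    rw [TF_sum hT z]
  rw [h1]
  have h2 : ∀ ζ, ‖∑ k ∈ I, G' k ζ‖ₑ ^ 2 ≤ (⌈C * (1 + 2) ^ m⌉₊ : ℝ≥0∞) *
      ∑ k ∈ I, ‖G' k ζ‖ₑ ^ 2 := by
    intro ζ
    refine few I (fun k => G' k ζ) _ ?_
    have h3 := h5 (sR R) (2 * sR R) (ζ.1⁻¹ • ζ.2.1) (I.filter fun k => G' k ζ ≠ 0) hs0
      (by positivity) (fun k hk => by
        obtain ⟨hk1, hk2⟩ := Finset.mem_filter.1 hk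
        rw [norm_sub_rev]
        exact hs k hk1 ζ hk2)
    rw [mul_div_assoc, div_self hs0.ne', mul_one] at h3
    exact_mod_cast h3.trans (Nat.le_ceil _)
  refine (lintegral_mono h2).trans (le_of_eq ?_)
  have hmeas : ∀ k ∈ I, Measurable fun ζ => ‖G' k ζ‖ₑ ^ 2 := fun k hk =>
    ((hT k hk).1.continuous.measurable.enorm).pow_const 2
  rw [lintegral_const_mul' _ _ (ENNReal.natCast_ne_top _), lintegral_finsetSum' _
    fun k hk => (hmeas k hk).aemeasurable]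
  congr 1
  exact Finset.sum_congr rfl fun k hk => (planch hPLN (hT k hk)).symm

private theorem sum_wt (hWT3 : T_WT3) (m : ℕ) : ∃ Cw : ℝ, 0 ≤ Cw ∧ ∀ (S : Finset (Pk m))
    (k : Fin m → ℤ) (x : Z m), (∀ W ∈ S, W.1 = k) →
    ∑ W ∈ S, wt (m + 3) (x - zc W.2) ≤ Cw := by
  classical
  obtain ⟨C, h1, -⟩ := hWT3 m (m + 3) le_rfl
  refine ⟨C, C.2, ?_⟩
  intro S k x hS
  have h2 := h1 1 x one_pos le_rfl
  simp only [one_smul, inv_one, one_pow, ENNReal.ofReal_one, mul_one] at h2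
  have h3 : ∑ W ∈ S, ENNReal.ofReal (wt (m + 3) (x - zc W.2)) ≤ C := by
    have h4 : ∑ W ∈ S, ENNReal.ofReal (wt (m + 3) (x - zc W.2)) =
        ∑ l ∈ S.image Prod.snd, ENNReal.ofReal (wt (m + 3) (zc l - x)) := by
      rw [Finset.sum_image]
      · refine Finset.sum_congr rfl fun W _ => ?_
        unfold wt
        rw [norm_sub_rev]
      · intro W hW W' hW' hWW'
        exact Prod.ext ((hS W hW).trans (hS W' hW').symm) hWW'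
    rw [h4]
    exact (ENNReal.sum_le_tsum _).trans h2
  rw [← ENNReal.ofReal_sum_of_nonneg fun W _ => (wt_pos _ _).le] at h3
  have h5 : ENNReal.ofReal (∑ W ∈ S, wt (m + 3) (x - zc W.2)) ≤ ENNReal.ofReal (C : ℝ) := by
    rwa [ENNReal.ofReal_coe_nnreal]
  exact (ENNReal.ofReal_le_ofReal_iff C.2).1 h5

private theorem int_wt (hWT2 : T_WT2) (hLOI : T_LOI) (m N : ℕ) (hN : m + 3 ≤ N) : ∃ C : ℝ≥0,
    ∀ (R δ : ℝ) (W : Pk m), 1 ≤ R →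
      ∫⁻ z, ENNReal.ofReal (wt N (fc R δ W.1 z - zc W.2)) ≤
        C * ENNReal.ofReal (R ^ (δ * ((m : ℝ) + 2)) * R ^ (((m : ℝ) + 2) / 2)) := by
  obtain ⟨C, hC, -⟩ := hWT2 m N hN
  refine ⟨C, fun R δ W hR => ?_⟩
  have hR0 : 0 < R := by linarith
  have h1 := (hLOI m (ctr (sR R) W.1) (sR R) (sR_pos hR)).1
    (fun y => ENNReal.ofReal (wt N (R ^ (-δ) • y - zc W.2)))
  unfold fc
  rw [h1]
  have h2 := hC (R ^ (-δ)) (zc W.2) (Real.rpow_pos_of_pos hR0 _)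
  refine (mul_le_mul' le_rfl h2).trans (le_of_eq ?_)
  have e1 : ((R ^ (-δ))⁻¹) ^ (m + 2) = R ^ (δ * ((m : ℝ) + 2)) := by
    rw [← Real.rpow_neg hR0.le, neg_neg, ← Real.rpow_natCast, ← Real.rpow_mul hR0.le]
    push_cast
    rfl
  have e2 : ((sR R)⁻¹) ^ (m + 2) = R ^ (((m : ℝ) + 2) / 2) := by
    unfold sR
    rw [inv_inv, Real.sqrt_eq_rpow, ← Real.rpow_natCast, ← Real.rpow_mul hR0.le]
    congr 1
    push_cast
    ring
  rw [e1, e2, mul_comm (R ^ (δ * ((m : ℝ) + 2))), ENNReal.ofReal_mul (by positivity)]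
  ring

/-- the pointwise bound -/
private theorem ptw {m : ℕ} {Cp Cw P : ℝ} {S : Finset (Pk m)} {F : Pk m → ℂ}
    {a ω : Pk m → ℝ} (hω : ∀ W, 0 ≤ ω W)
    (hF : ∀ W ∈ S, ‖F W‖ ≤ Cp * P * a W * ω W) (hCw : ∑ W ∈ S, ω W ≤ Cw) :
    ‖∑ W ∈ S, F W‖ₑ ^ 2 ≤ ENNReal.ofReal ((Cp * P) ^ 2 * Cw) *
      ∑ W ∈ S, ENNReal.ofReal (a W ^ 2) * ENNReal.ofReal (ω W) := by
  have hCw0 : 0 ≤ Cw := (Finset.sum_nonneg fun W _ => hω W).trans hCw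
  have h1 : ‖∑ W ∈ S, F W‖ ≤ Cp * P * ∑ W ∈ S, a W * ω W := by
    refine (norm_sum_le _ _).trans ?_
    rw [Finset.mul_sum]
    refine Finset.sum_le_sum fun W hW => (hF W hW).trans (le_of_eq (by ring))
  have h2 : (∑ W ∈ S, a W * ω W) ^ 2 ≤ Cw * ∑ W ∈ S, a W ^ 2 * ω W := by
    refine (Finset.sum_sq_le_sum_mul_sum_of_sq_le_mul S (f := ω) (g := fun W => a W ^ 2 * ω W)
      (fun W _ => hω W) (fun W _ => mul_nonneg (sq_nonneg _) (hω W))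
      (fun W _ => le_of_eq (by ring))).trans ?_
    exact mul_le_mul_of_nonneg_right hCw
      (Finset.sum_nonneg fun W _ => mul_nonneg (sq_nonneg _) (hω W))
  have h5 : ‖∑ W ∈ S, F W‖ ^ 2 ≤ (Cp * P) ^ 2 * Cw * ∑ W ∈ S, a W ^ 2 * ω W := by
    refine (pow_le_pow_left₀ (norm_nonneg _) h1 2).trans ?_
    rw [mul_pow, mul_assoc]
    exact mul_le_mul_of_nonneg_left h2 (sq_nonneg _)
  have h6 : ‖∑ W ∈ S, F W‖ₑ ^ 2 = ENNReal.ofReal (‖∑ W ∈ S, F W‖ ^ 2) := by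
    rw [← ofReal_norm, ENNReal.ofReal_pow (norm_nonneg _)]
  rw [h6]
  refine (ENNReal.ofReal_le_ofReal h5).trans (le_of_eq ?_)
  rw [ENNReal.ofReal_mul (by positivity), ENNReal.ofReal_sum_of_nonneg fun W _ =>
    mul_nonneg (sq_nonneg _) (hω W)]
  congr 1
  refine Finset.sum_congr rfl fun W _ => ?_
  rw [ENNReal.ofReal_mul (sq_nonneg _)]

private theorem one_cap (hLOI : T_LOI) (hWT2 : T_WT2) (hWT3 : T_WT3) (hPTW : T_PTW)
    (m N : ℕ) (β : E m → ℂ) (Ψ : Z m → ℂ) (ψ : Z m → ℝ) (δ : ℝ) (hβ : IsPU β)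
    (hψ : IsPsi Ψ ψ) (hδ : 0 ≤ δ) : ∃ K : ℝ≥0, ∀ (R : ℝ) (G : Z m → ℂ)
    (S : Finset (Pk m)) (k : Fin m → ℤ), 1 ≤ R → TC G →
    (∀ ζ, G ζ ≠ 0 → ζ ∈ Rg m (1 / 2) R⁻¹) → (∀ W ∈ S, W.1 = k) →
    ∫⁻ z, ‖∑ W ∈ S, Fp β ψ R δ G W z‖ₑ ^ 2 ≤
      K * ENNReal.ofReal (R ^ (δ * (2 * (m : ℝ) + 4)) * R ^ (((m : ℝ) + 2) / 2)) *
        ∑ W ∈ S, al2 N β R δ G W := by
  obtain ⟨K1, hK1⟩ := int_wt hWT2 hLOI m (m + 3) le_rfl
  obtain ⟨Cw, hCw0, hCw⟩ := sum_wt hWT3 m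
  obtain ⟨Cp, hCp0, hCp⟩ := hPTW m N (m + 3) β Ψ ψ δ hβ hψ hδ
  refine ⟨⟨Cp ^ 2 * Cw, by positivity⟩ * K1, ?_⟩
  intro R G S k hR hG hGs hS
  have hR0 : 0 < R := by linarith
  set P : ℝ := R ^ (δ * ((m : ℝ) + 2) / 2) with hP
  have hP0 : 0 ≤ P := Real.rpow_nonneg hR0.le _
  obtain ⟨ω, hω⟩ : ∃ ω : Pk m → Z m → ℝ, ω = fun W z => wt (m + 3)
    (fc R δ W.1 z - zc W.2) := ⟨_, rfl⟩
  have hω0 : ∀ W z, 0 ≤ ω W z := fun W z => by rw [hω]; exact (wt_pos _ _).le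
  have hωc : ∀ W, Continuous (ω W) := by
    intro W
    rw [hω]
    have hL : Continuous (Lo (ctr (sR R) W.1) (sR R) : Z m → Z m) := cont_Lo _ _
    have h1 : Continuous fun z : Z m => fc R δ W.1 z - zc W.2 := by
      unfold fc
      fun_prop
    unfold wt
    exact Continuous.inv₀ ((continuous_const.add h1.norm).pow _) fun z => by positivity
  have hpt : ∀ z, ‖∑ W ∈ S, Fp β ψ R δ G W z‖ₑ ^ 2 ≤
      ENNReal.ofReal ((Cp * P) ^ 2 * Cw) * ∑ W ∈ S,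
        ENNReal.ofReal (al N β R δ G W ^ 2) * ENNReal.ofReal (ω W z) := by
    intro z
    have hs : ∑ W ∈ S, ω W z ≤ Cw := by
      refine le_trans (le_of_eq ?_) (hCw S k (fc R δ k z) hS)
      refine Finset.sum_congr rfl fun W hW => ?_
      rw [hω]
      beta_reduce
      rw [hS W hW]
    exact ptw (S := S) (F := fun W => Fp β ψ R δ G W z) (a := fun W => al N β R δ G W)
      (ω := fun W => ω W z) (Cw := Cw) (fun W => hω0 W z)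
      (fun W hW => by
        refine (hCp R G W z hR hG hGs).trans (le_of_eq ?_)
        rw [hω]) hs
  refine (lintegral_mono hpt).trans ?_
  rw [lintegral_const_mul' _ _ ENNReal.ofReal_ne_top]
  rw [lintegral_finsetSum' _ fun W _ => by
    refine Measurable.aemeasurable ?_
    refine Measurable.const_mul ?_ _
    exact ENNReal.measurable_ofReal.comp (hωc W).measurable]
  have h2 : ∀ W ∈ S, ∫⁻ z, ENNReal.ofReal (al N β R δ G W ^ 2) * ENNReal.ofReal (ω W z) ≤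
      al2 N β R δ G W * (K1 * ENNReal.ofReal (R ^ (δ * ((m : ℝ) + 2)) *
        R ^ (((m : ℝ) + 2) / 2))) := by
    intro W _
    rw [lintegral_const_mul' _ _ ENNReal.ofReal_ne_top]
    refine mul_le_mul' ?_ ?_
    · unfold al
      rw [Real.sq_sqrt ENNReal.toReal_nonneg]
      exact ENNReal.ofReal_toReal_le
    · rw [hω]
      exact hK1 R δ W hR
  refine (mul_le_mul' le_rfl (Finset.sum_le_sum h2)).trans (le_of_eq ?_)
  rw [← Finset.sum_mul]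
  have h3 : ENNReal.ofReal ((Cp * P) ^ 2 * Cw) *
      ENNReal.ofReal (R ^ (δ * ((m : ℝ) + 2)) * R ^ (((m : ℝ) + 2) / 2)) =
      ENNReal.ofReal (Cp ^ 2 * Cw) *
      ENNReal.ofReal (R ^ (δ * (2 * (m : ℝ) + 4)) * R ^ (((m : ℝ) + 2) / 2)) := by
    rw [← ENNReal.ofReal_mul (by positivity), ← ENNReal.ofReal_mul (by positivity)]
    congr 1
    have h4 : P ^ 2 * R ^ (δ * ((m : ℝ) + 2)) = R ^ (δ * (2 * (m : ℝ) + 4)) := by
      rw [hP, ← Real.rpow_natCast, ← Real.rpow_mul hR0.le, ← Real.rpow_add hR0]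
      congr 1
      push_cast
      ring
    rw [← h4]
    ring
  have h5 : ((⟨Cp ^ 2 * Cw, by positivity⟩ * K1 : ℝ≥0) : ℝ≥0∞) =
      ENNReal.ofReal (Cp ^ 2 * Cw) * K1 := by
    rw [ENNReal.coe_mul]
    congr 1
    exact (ENNReal.ofReal_eq_coe_nnreal _).symm
  rw [h5]
  calc ENNReal.ofReal ((Cp * P) ^ 2 * Cw) * ((∑ W ∈ S, al2 N β R δ G W) *
        (K1 * ENNReal.ofReal (R ^ (δ * ((m : ℝ) + 2)) * R ^ (((m : ℝ) + 2) / 2))))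
      = (ENNReal.ofReal ((Cp * P) ^ 2 * Cw) *
        ENNReal.ofReal (R ^ (δ * ((m : ℝ) + 2)) * R ^ (((m : ℝ) + 2) / 2))) * K1 *
        ∑ W ∈ S, al2 N β R δ G W := by ring
    _ = _ := by rw [h3]; ring

private theorem Rg_mono {m : ℕ} {κ κ' c : ℝ} (h : κ ≤ κ') (hκ : κ ≤ 1) (hc : 0 ≤ c) {ζ : Z m}
    (hζ : ζ ∈ Rg m κ c) : ζ ∈ Rg m κ' c := by
  obtain ⟨h1, h2, h3, h4⟩ := hζ
  refine ⟨by linarith, by linarith, h3.trans ?_, h4.trans ?_⟩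
  · exact mul_le_mul_of_nonneg_right (by linarith) (by linarith)
  · exact mul_le_mul_of_nonneg_right (by linarith) hc

theorem pf_ENP (hPKT : T_PKT) (hPLN : T_PLN) (hPTW : T_PTW) (hWT2 : T_WT2) (hWT3 : T_WT3)
    (hPUS : T_PUS) (hLOI : T_LOI) (hLWX : T_LWX) : T_ENP := by
  classical
  intro m N β Ψ ψ δ hβ hψ hδ hδ4 hN
  obtain ⟨Ξ, χ, hχ⟩ := hLWX m
  obtain ⟨C1, hC1, hP⟩ := hPKT m β Ψ Ξ ψ χ hβ hψ hχ
  obtain ⟨Co, hCo⟩ := orth hPLN hPUS m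
  obtain ⟨K, hK⟩ := one_cap hLOI hWT2 hWT3 hPTW m N β Ψ ψ δ hβ hψ hδ.le
  have hCK : (0 : ℝ) ≤ Co * K := by positivity
  refine ⟨8 * C1 + Co * K, by linarith, ?_⟩
  intro κ R G S hκ hκ1 hR hCR hG hGs hSK
  have hR0 : 0 < R := by linarith
  have hRd : 0 < R ^ (-δ) := Real.rpow_pos_of_pos hR0 _
  obtain ⟨⟨G', hG1, hG2, hG3, -⟩, -⟩ := hP κ R R δ G S 0 hκ hκ1 hδ hδ4 hR (by linarith) hG hGs
  have hGs' : ∀ ζ, G ζ ≠ 0 → ζ ∈ Rg m (1 / 2) R⁻¹ := fun ζ hζ =>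
    Rg_mono (by linarith) (by linarith) (inv_nonneg.2 hR0.le) (hGs ζ hζ)
  set I : Finset (Fin m → ℤ) := S.image Prod.fst with hI
  have hmaps : ∀ W ∈ S, W.1 ∈ I := fun W hW => Finset.mem_image_of_mem _ hW
  have hTC : TC (fun ζ => ∑ k ∈ I, G' k ζ) := tc_sum fun k _ => hG1 k
  have hTF : ∀ z, TF (fun ζ => ∑ k ∈ I, G' k ζ) z = ∑ k ∈ I, TF (G' k) z := fun z =>
    TF_sum (fun k _ => hG1 k) z
  refine ⟨fun ζ => ∑ k ∈ I, G' k ζ, hTC, ?_, ?_, ?_⟩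
  · intro z
    rw [hTF, Finset.sum_congr rfl fun k _ => hG3 k z]
    exact Finset.sum_fiberwise_of_maps_to hmaps _
  · intro ζ hζ
    obtain ⟨k, hk, hk'⟩ := Finset.exists_ne_zero_of_sum_ne_zero hζ
    obtain ⟨W, hW, rfl⟩ := Finset.mem_image.1 hk
    obtain ⟨h1, h2⟩ := hG2 W.1 ζ hk'
    refine ⟨Rg_mono ?_ ?_ (inv_nonneg.2 hR0.le) h1, W, hW, h2⟩
    · have : C1 * R ^ (-δ) ≤ (8 * C1 + Co * K) * R ^ (-δ) :=
        mul_le_mul_of_nonneg_right (by linarith) hRd.le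
      linarith
    · have h3 : C1 * R ^ (-δ) ≤ 1 / 8 := by
        rw [Real.rpow_neg hR0.le, ← div_eq_mul_inv, div_le_iff₀ (Real.rpow_pos_of_pos hR0 _)]
        linarith
      linarith
  · have h0 : ENNReal.ofReal (∫ ζ, ‖(fun ζ => ∑ k ∈ I, G' k ζ) ζ‖ ^ 2) =
        ∫⁻ z, ‖∑ k ∈ I, TF (G' k) z‖ₑ ^ 2 := by
      rw [← (hPLN m _ hTC).1]
      exact lintegral_congr fun z => by rw [hTF z]
    rw [h0]
    refine (hCo R G' I hR (fun k _ => hG1 k) fun k _ ζ hζ => (hG2 k ζ hζ).2).trans ?_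
    have h4 : ∀ k ∈ I, ∫⁻ z, ‖TF (G' k) z‖ₑ ^ 2 ≤
        K * ENNReal.ofReal (R ^ (δ * (2 * (m : ℝ) + 4)) * R ^ (((m : ℝ) + 2) / 2)) *
          ∑ W ∈ S.filter (fun W => W.1 = k), al2 N β R δ G W := by
      intro k _
      have h5 := hK R G (S.filter fun W => W.1 = k) k hR hG hGs' fun W hW =>
        (Finset.mem_filter.1 hW).2
      refine le_trans (le_of_eq ?_) h5
      refine lintegral_congr fun z => ?_
      rw [hG3 k z]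
    refine (mul_le_mul' le_rfl (Finset.sum_le_sum h4)).trans ?_
    rw [← Finset.mul_sum, Finset.sum_fiberwise_of_maps_to hmaps]
    have h6 : ENNReal.ofReal (R ^ (δ * (2 * (m : ℝ) + 4)) * R ^ (((m : ℝ) + 2) / 2)) ≤
        ENNReal.ofReal (R ^ (lo m * δ)) * ENNReal.ofReal (R ^ (((m : ℝ) + 2) / 2)) := by
      rw [← ENNReal.ofReal_mul (by positivity)]
      refine ENNReal.ofReal_le_ofReal ?_
      refine mul_le_mul_of_nonneg_right ?_ (by positivity)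
      refine Real.rpow_le_rpow_of_exponent_le hR ?_
      unfold lo
      have : (0 : ℝ) ≤ m := Nat.cast_nonneg m
      nlinarith
    have h9 : (Co : ℝ≥0∞) * K ≤ ENNReal.ofReal (8 * C1 + Co * K) := by
      rw [ENNReal.ofReal_add (by linarith) hCK, ENNReal.ofReal_mul (Nat.cast_nonneg _),
        ENNReal.ofReal_natCast, ENNReal.ofReal_coe_nnreal]
      exact le_add_self
    rw [ENNReal.ofReal_mul (p := 8 * C1 + Co * K) (by linarith), ← Finset.sum_mul]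
    calc (Co : ℝ≥0∞) * (K * ENNReal.ofReal (R ^ (δ * (2 * (m : ℝ) + 4)) *
          R ^ (((m : ℝ) + 2) / 2)) * ∑ W ∈ S, al2 N β R δ G W)
        = (Co * K) * ENNReal.ofReal (R ^ (δ * (2 * (m : ℝ) + 4)) *
          R ^ (((m : ℝ) + 2) / 2)) * ∑ W ∈ S, al2 N β R δ G W := by ring
      _ ≤ ENNReal.ofReal (8 * C1 + Co * K) * (ENNReal.ofReal (R ^ (lo m * δ)) *
          ENNReal.ofReal (R ^ (((m : ℝ) + 2) / 2))) * ∑ W ∈ S, al2 N β R δ G W :=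
          mul_le_mul' (mul_le_mul' h9 h6) le_rfl
      _ = _ := by ring

end Pool.Agent.H45.B2.ENP
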