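import Pool.Agent.H88.B2.Targets

/-! Board bpd_modules, row RDI: refined decoupling for wave packets, integral form
(after Pool/Agent/H84/G/RDP.lean, MP_ee74d2_an). -/

set_option autoImplicit false

open MeasureTheory Set
open scoped ENNReal NNReal RealInnerProductSpace

namespace Pool.Agent.H45.B2.RDI

open Pool.Agent.H83.G Pool.Agent.H88.B2

private theorem Rg_mono {m : ℕ} {κ κ' c : ℝ} (hκ : κ ≤ κ') (hκ1 : κ ≤ 1) (hc : 0 ≤ c) {ζ : Z m}
    (h : ζ ∈ Rg m κ c) : ζ ∈ Rg m κ' c := by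
  obtain ⟨h1, h2, h3, h4⟩ := h
  have h0 : 0 ≤ ζ.1 := by linarith
  refine ⟨by linarith, by linarith, h3.trans ?_, h4.trans ?_⟩
  · exact mul_le_mul_of_nonneg_right (by linarith) h0
  · exact mul_le_mul_of_nonneg_right (by linarith) hc

private theorem sR_sq (R : ℝ) (hR : 1 ≤ R) : sR R ^ 2 = R⁻¹ := by
  unfold sR
  rw [inv_pow, Real.sq_sqrt (by linarith)]

private theorem sR_pos (R : ℝ) (hR : 1 ≤ R) : 0 < sR R := by
  unfold sR
  exact inv_pos.mpr (Real.sqrt_pos.mpr (by linarith))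

private theorem sR_le (R : ℝ) (hR : 1 ≤ R) : sR R ≤ 1 := by
  unfold sR
  exact inv_le_one_of_one_le₀ (by rw [Real.one_le_sqrt]; exact hR)

/-- the weight varies slowly -/
private theorem wt_slow (hWT1 : T_WT1) {m : ℕ} (N : ℕ) (x y : Z m) :
    wt N x ≤ (1 + ‖x - y‖) ^ N * wt N y := by
  have h1 := (hWT1 m N).2.2.1 x (y - x)
  rw [add_sub_cancel] at h1
  have h2 : wt N (y - x) = ((1 + ‖x - y‖) ^ N)⁻¹ := by unfold wt; rw [norm_sub_rev]
  rw [h2] at h1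
  have h3 : (0 : ℝ) < (1 + ‖x - y‖) ^ N := by positivity
  rw [← div_eq_mul_inv, div_le_iff₀ h3] at h1
  linarith

private theorem fc_sub (hLOA : T_LOA) {m : ℕ} (R δ : ℝ) (k : Fin m → ℤ) (z z' : Z m) :
    fc R δ k z - fc R δ k z' = R ^ (-δ) • Lo (ctr (sR R) k) (sR R) (z - z') := by
  unfold fc
  rw [((hLOA m).1 _ _ z z').2.1, smul_sub]

private noncomputable def Mk {m : ℕ} (N : ℕ) (R δ : ℝ) (S : Finset (Pk m)) (k : Fin m → ℤ)
    (z : Z m) : ℝ :=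
  ∑ W ∈ S.filter (fun W => W.1 = k), wt N (fc R δ W.1 z - zc W.2)

private theorem wt_pos {m : ℕ} (N : ℕ) (x : Z m) : 0 < wt N x := by unfold wt; positivity

private theorem Mk_nonneg {m : ℕ} (N : ℕ) (R δ : ℝ) (S : Finset (Pk m)) (k : Fin m → ℤ)
    (z : Z m) : 0 ≤ Mk N R δ S k z :=
  Finset.sum_nonneg fun _ _ => (wt_pos N _).le

private theorem Mk_pos {m : ℕ} (N : ℕ) (R δ : ℝ) (S : Finset (Pk m)) (k : Fin m → ℤ)
    (hk : k ∈ S.image Prod.fst) (z : Z m) : 0 < Mk N R δ S k z := by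
  obtain ⟨W, hW, rfl⟩ := Finset.mem_image.mp hk
  refine Finset.sum_pos (fun _ _ => wt_pos N _) ⟨W, ?_⟩
  simp [hW]

private theorem Mk_cont (hWT1 : T_WT1) (hLOI : T_LOI) {m : ℕ} (N : ℕ) (R δ : ℝ) (hR : 1 ≤ R)
    (S : Finset (Pk m)) (k : Fin m → ℤ) : Continuous (Mk N R δ S k) := by
  unfold Mk
  refine continuous_finsetSum _ fun W _ => ?_
  have h1 : Continuous (wt N : Z m → ℝ) := (hWT1 m N).2.1
  have h2 : Continuous (Lo (ctr (sR R) W.1) (sR R) : Z m → Z m) :=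
    (hLOI m _ _ (sR_pos R hR)).2.2.2.2.1.continuous
  have h3 : Continuous (fun z : Z m => fc R δ W.1 z - zc W.2) := by
    unfold fc
    fun_prop
  exact h1.comp h3

private theorem Mk_slow (hWT1 : T_WT1) (hLOA : T_LOA) {m : ℕ} (N : ℕ) (R δ : ℝ)
    (S : Finset (Pk m)) (k : Fin m → ℤ) (z z' : Z m) :
    Mk N R δ S k z ≤ (1 + ‖R ^ (-δ) • Lo (ctr (sR R) k) (sR R) (z - z')‖) ^ N *
      Mk N R δ S k z' := by
  unfold Mk
  rw [Finset.mul_sum]
  refine Finset.sum_le_sum fun W hW => ?_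
  have h1 := wt_slow hWT1 N (fc R δ W.1 z - zc W.2) (fc R δ W.1 z' - zc W.2)
  rw [sub_sub_sub_cancel_right, fc_sub hLOA, (Finset.mem_filter.mp hW).2] at h1
  rw [(Finset.mem_filter.mp hW).2]
  exact h1

private theorem Mk_le (hWT3 : T_WT3) (m N : ℕ) (hN : m + 3 ≤ N) : ∃ C : ℝ≥0,
    ∀ (R δ : ℝ) (S : Finset (Pk m)) (k : Fin m → ℤ) (z : Z m),
      ENNReal.ofReal (Mk N R δ S k z) ≤ C := by
  obtain ⟨C, hC, -⟩ := hWT3 m N hN
  refine ⟨C, fun R δ S k z => ?_⟩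
  unfold Mk
  rw [ENNReal.ofReal_sum_of_nonneg fun _ _ => (wt_pos N _).le]
  have h1 : ∑ W ∈ S.filter (fun W => W.1 = k), ENNReal.ofReal (wt N (fc R δ W.1 z - zc W.2))
      = ∑ l ∈ (S.filter (fun W => W.1 = k)).image Prod.snd,
        ENNReal.ofReal (wt N (fc R δ k z - zc l)) := by
    rw [Finset.sum_image]
    · refine Finset.sum_congr rfl fun W hW => ?_
      rw [(Finset.mem_filter.mp hW).2]
    · intro W hW W' hW' h
      have e1 := (Finset.mem_filter.mp hW).2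
      have e2 := (Finset.mem_filter.mp hW').2
      exact Prod.ext (e1.trans e2.symm) h
  rw [h1]
  refine (ENNReal.sum_le_tsum _).trans ?_
  have h2 := hC 1 (fc R δ k z) one_pos le_rfl
  simp only [one_smul, inv_one, one_pow, ENNReal.ofReal_one, mul_one] at h2
  refine le_trans (le_of_eq ?_) h2
  refine tsum_congr fun l => ?_
  unfold wt
  rw [norm_sub_rev]

private theorem int_wt (hWT2 : T_WT2) (hLOI : T_LOI) (m N : ℕ) (hN : m + 3 ≤ N) : ∃ C : ℝ≥0,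
    ∀ (R δ : ℝ) (W : Pk m), 1 ≤ R →
      ∫⁻ z, ENNReal.ofReal (wt N (fc R δ W.1 z - zc W.2)) ≤
        C * ENNReal.ofReal (R ^ (δ * ((m : ℝ) + 2)) * R ^ (((m : ℝ) + 2) / 2)) := by
  obtain ⟨C, hC, -⟩ := hWT2 m N hN
  refine ⟨C, fun R δ W hR => ?_⟩
  have hR0 : 0 < R := by linarith
  have h1 := (hLOI m (ctr (sR R) W.1) (sR R) (sR_pos R hR)).1
    (fun y => ENNReal.ofReal (wt N (R ^ (-δ) • y - zc W.2)))
  unfold fc
  rw [h1]
  have h2 := hC (R ^ (-δ)) (zc W.2) (Real.rpow_pos_of_pos hR0 _)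
  refine (mul_le_mul' le_rfl h2).trans (le_of_eq ?_)
  have e1 : ((R ^ (-δ))⁻¹) ^ (m + 2) = R ^ (δ * ((m : ℝ) + 2)) := by
    rw [← Real.rpow_neg hR0.le, neg_neg, ← Real.rpow_natCast, ← Real.rpow_mul hR0.le]
    push_cast
    rfl
  have e2 : ((sR R)⁻¹) ^ (m + 2) = R ^ (((m : ℝ) + 2) / 2) := by
    unfold sR
    rw [inv_inv, Real.sqrt_eq_rpow, ← Real.rpow_natCast, ← Real.rpow_mul hR0.le]
    congr 1
    push_cast
    ring
  rw [e1, e2, mul_comm (R ^ (δ * ((m : ℝ) + 2))), ENNReal.ofReal_mul (by positivity)]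
  ring

private theorem sum_Mk {m : ℕ} (N : ℕ) (R δ : ℝ) (S : Finset (Pk m)) (z : Z m) :
    ∑ k ∈ S.image Prod.fst, Mk N R δ S k z = MS N R δ S z := by
  unfold Mk MS
  exact Finset.sum_fiberwise_of_maps_to (fun W hW => Finset.mem_image_of_mem _ hW) _

private theorem F_TC {m : ℕ} (I : Finset (Fin m → ℤ)) (G' : (Fin m → ℤ) → Z m → ℂ)
    (h : ∀ k, TC (G' k)) : TC (fun ζ => ∑ k ∈ I, G' k ζ) := by
  refine ⟨ContDiff.sum fun k _ => (h k).1, ?_⟩
  classical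
  induction I using Finset.induction_on with
  | empty =>
    simp only [Finset.sum_empty]
    exact HasCompactSupport.zero
  | insert a s has ih =>
    simp_rw [Finset.sum_insert has]
    exact (h a).2.add ih

private theorem Rg_norm {m : ℕ} (R : ℝ) (hR : 1 ≤ R) (ζ : Z m) (h : ζ ∈ Rg m (1 / 2) R⁻¹) :
    ‖ζ‖ ≤ 12 := by
  obtain ⟨q1, q2, q3, q4⟩ := h
  have hζ0 : 0 < ζ.1 := by linarith
  have hRi : R⁻¹ ≤ 1 := inv_le_one_of_one_le₀ hR
  have h1 : ‖ζ.2.1‖ ≤ 27 / 4 := by nlinarith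
  have h2 : ‖ζ.2.1‖ ^ 2 / ζ.1 ≤ 81 / 8 := by
    rw [div_le_iff₀ hζ0]
    have h3 : ‖ζ.2.1‖ ^ 2 ≤ ((1 + 1 / 2) * ζ.1) ^ 2 := pow_le_pow_left₀ (norm_nonneg _) q3 2
    nlinarith
  have h3 : 0 ≤ ‖ζ.2.1‖ ^ 2 / ζ.1 := by positivity
  have h4 := abs_le.mp q4
  rw [Prod.norm_def, Prod.norm_def, max_le_iff, max_le_iff]
  refine ⟨?_, by linarith, ?_⟩
  · rw [Real.norm_eq_abs, abs_of_pos hζ0]; linarith
  · rw [Real.norm_eq_abs, abs_le]; constructor <;> linarith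

private theorem F_TF {m : ℕ} (I : Finset (Fin m → ℤ)) (G' : (Fin m → ℤ) → Z m → ℂ)
    (h : ∀ k, TC (G' k)) (z : Z m) :
    TF (fun ζ => ∑ k ∈ I, G' k ζ) z = ∑ k ∈ I, TF (G' k) z := by
  unfold TF
  rw [← integral_finsetSum]
  · refine integral_congr_ae (Filter.Eventually.of_forall fun ζ => ?_)
    simp only [Finset.mul_sum]
  · intro k _
    have h1 : Continuous (fun ζ : Z m => e (ph z ζ) * G' k ζ) := by
      have h2 : Continuous (fun ζ : Z m => e (ph z ζ)) := by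
        unfold e ph
        fun_prop
      exact h2.mul (h k).1.continuous
    exact h1.integrable_of_hasCompactSupport
      (HasCompactSupport.mul_left (f := fun ζ : Z m => e (ph z ζ)) (h k).2)

private theorem expo (m : ℕ) (R δ P j : ℝ) (hR : 1 ≤ R) (hδ : 0 < δ) (hP : 0 ≤ P) (hP6 : P ≤ 6)
    (hj : 0 ≤ 1 / j) (hjδ : 1 / j ≤ δ) :
    R ^ ((P + 1) / j) * (R ^ (δ * ((m : ℝ) + 2) / 2)) ^ P * R ^ (δ * ((m : ℝ) + 2))
      ≤ R ^ (lo m * δ) := by
  have hR0 : 0 < R := by linarith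
  rw [← Real.rpow_mul hR0.le, ← Real.rpow_add hR0, ← Real.rpow_add hR0]
  refine Real.rpow_le_rpow_of_exponent_le hR ?_
  have h1 : (P + 1) / j ≤ 7 * δ := by
    calc (P + 1) / j = (P + 1) * (1 / j) := by ring
      _ ≤ 7 * δ := mul_le_mul (by linarith) hjδ hj (by norm_num)
  have h2 : δ * ((m : ℝ) + 2) / 2 * P ≤ δ * ((m : ℝ) + 2) / 2 * 6 :=
    mul_le_mul_of_nonneg_left hP6 (by positivity)
  have h3 : 0 ≤ δ * m := by positivity
  have e2 : δ * ((m : ℝ) + 2) / 2 * 6 = 3 * (δ * m) + 6 * δ := by ring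
  have e3 : δ * ((m : ℝ) + 2) = δ * m + 2 * δ := by ring
  have e4 : lo m * δ = 100 * (δ * m) + 200 * δ := by unfold lo; ring
  rw [e2] at h2
  rw [e4, e3]
  rw [e3] at h2
  linarith

theorem pf_RDI (hRDA : T_RDA) (hPKT : T_PKT) (hPTW : T_PTW) (hLOA : T_LOA)
    (hLOI : T_LOI) (hWT1 : T_WT1) (hWT2 : T_WT2) (hWT3 : T_WT3) (hLWX : T_LWX) : T_RDI := by
  intro m N β Ψ ψ δ P hm hβ hΨ hδ hδ4 hN hP hmP
  obtain ⟨Ξ, χ, hΞ⟩ := hLWX m
  obtain ⟨C1, hC1, hPK⟩ := hPKT m β Ψ Ξ ψ χ hβ hΨ hΞ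
  obtain ⟨C2, hC2, hPT⟩ := hPTW m N N β Ψ ψ δ hβ hΨ hδ.le
  set J : ℕ := ⌈1 / δ⌉₊ with hJ
  have hJ1 : 1 / δ ≤ J := Nat.le_ceil _
  have hJpos : (0 : ℝ) < J := lt_of_lt_of_le (by positivity) hJ1
  have hJ1' : 1 ≤ J := by exact_mod_cast hJpos
  have hJδ : 1 / (J : ℝ) ≤ δ := by
    rw [div_le_iff₀ hJpos]
    rw [div_le_iff₀ hδ] at hJ1
    linarith
  obtain ⟨C3, hC3, hRD⟩ := hRDA m N J P 2 1 hm hP hmP (by norm_num) zero_le_one hJ1'
  obtain ⟨C5, hMk⟩ := Mk_le hWT3 m N hN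
  obtain ⟨C6, hint⟩ := int_wt hWT2 hLOI m N hN
  have hP0 : 0 < P := by linarith
  have hm1 : (1 : ℝ) ≤ m := by exact_mod_cast hm
  have hP6 : P < 6 := by nlinarith
  set Cf : ℝ := C3 * C2 ^ P * (C5 : ℝ) ^ (P / 2) * C6 with hCf
  have hCf0 : 0 ≤ Cf := by positivity
  refine ⟨max (8 * C1) Cf, le_max_of_le_left (by linarith), ?_⟩
  intro κ R a G S hκ hκ' hR hCR hTC hsupp ha hSne hS
  have hR0 : 0 < R := by linarith
  have hRinv : (0 : ℝ) ≤ R⁻¹ := by positivity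
  have hC1R : 8 * C1 ≤ R ^ δ := (le_max_left _ _).trans hCR
  have hsRp := sR_pos R hR
  have hsR1 := sR_le R hR
  have hsRsq := sR_sq R hR
  set I : Finset (Fin m → ℤ) := S.image Prod.fst with hI
  have hIK : I ⊆ Ks m (sR R) := by
    intro k hk
    obtain ⟨W, hW, rfl⟩ := Finset.mem_image.mp hk
    exact (hS W hW).1
  obtain ⟨⟨G', hG'TC, hG'supp, hG'TF, -⟩, -⟩ := hPK κ R R δ G S 0 hκ hκ' hδ hδ4 hR
    (by linarith) hTC hsupp
  have hκ2 : κ + C1 * R ^ (-δ) ≤ 1 / 2 := by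
    have h1 : C1 * R ^ (-δ) ≤ 1 / 8 := by
      rw [Real.rpow_neg hR0.le, ← div_eq_mul_inv, div_le_iff₀ (Real.rpow_pos_of_pos hR0 _)]
      linarith
    linarith
  have hG'2 : ∀ k ζ, G' k ζ ≠ 0 → ζ ∈ Rg m (1 / 2) R⁻¹ := fun k ζ hζ =>
    Rg_mono hκ2 (by linarith) hRinv (hG'supp k ζ hζ).1
  have hG2 : ∀ ζ, G ζ ≠ 0 → ζ ∈ Rg m (1 / 2) R⁻¹ := fun ζ hζ =>
    Rg_mono (by linarith) (by linarith) hRinv (hsupp ζ hζ)
  -- pointwise bound of the pieces
  set lam : ℝ := C2 * R ^ (δ * ((m : ℝ) + 2) / 2) * a with hlam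
  have hlam0 : 0 ≤ lam := by positivity
  have hpw : ∀ k z, ‖TF (G' k) z‖ₑ ≤ ENNReal.ofReal lam * ENNReal.ofReal (Mk N R δ S k z) := by
    intro k z
    rw [← ENNReal.ofReal_mul hlam0, ← ofReal_norm]
    refine ENNReal.ofReal_le_ofReal ?_
    rw [hG'TF]
    unfold Mk
    rw [Finset.mul_sum]
    refine (norm_sum_le _ _).trans (Finset.sum_le_sum fun W hW => ?_)
    refine (hPT R G W z hR hTC hG2).trans ?_
    refine mul_le_mul_of_nonneg_right ?_ (wt_pos N _).le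
    exact mul_le_mul_of_nonneg_left (hS W (Finset.mem_filter.mp hW).1).2 (by positivity)
  have hMk0 : ∀ k ∈ I, ∀ z, ENNReal.ofReal (Mk N R δ S k z) ≠ 0 ∧
      ENNReal.ofReal (Mk N R δ S k z) ≠ ⊤ := by
    intro k hk z
    refine ⟨?_, ENNReal.ofReal_ne_top⟩
    rw [Ne, ENNReal.ofReal_eq_zero, not_le]
    exact Mk_pos N R δ S k hk z
  have hMkm : ∀ k, Measurable (fun z => ENNReal.ofReal (Mk N R δ S k z)) := fun k =>
    ENNReal.measurable_ofReal.comp (Mk_cont hWT1 hLOI N R δ hR S k).measurable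
  -- refined decoupling
  have hRDA' := hRD R I G' (fun k z => ENNReal.ofReal (Mk N R δ S k z)) hR hIK
    (fun k _ => hG'TC k) ?_ ?_
  rotate_left
  · intro k hk ζ hζ
    obtain ⟨q1, q2, q3, q4⟩ := hG'2 k ζ hζ
    refine ⟨by linarith, by linarith, (hG'supp k ζ hζ).2, ?_⟩
    rw [hsRsq]
    refine q4.trans (mul_le_mul_of_nonneg_right (by norm_num) hRinv)
  · intro k hk
    refine ⟨hMkm k, ?_, hMk0 k hk⟩
    intro z z'
    rw [one_mul, ← ENNReal.ofReal_mul (by positivity)]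
    refine ENNReal.ofReal_le_ofReal ((Mk_slow hWT1 hLOA N R δ S k z z').trans ?_)
    refine mul_le_mul_of_nonneg_right (pow_le_pow_left₀ (by positivity) ?_ _)
      (Mk_nonneg N R δ S k z')
    rw [norm_smul, norm_smul, Real.norm_eq_abs, Real.norm_eq_abs,
      abs_of_pos (Real.rpow_pos_of_pos hR0 _), abs_of_pos (by positivity)]
    have h1 : R ^ (-δ) ≤ (R ^ (1 / (J : ℝ)))⁻¹ := by
      rw [Real.rpow_neg hR0.le]
      exact inv_anti₀ (by positivity) (Real.rpow_le_rpow_of_exponent_le hR hJδ)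
    have := mul_le_mul_of_nonneg_right h1 (norm_nonneg (Lo (ctr (sR R) k) (sR R) (z - z')))
    linarith
  -- the weight
  have hMS : ∀ z, ∑ k ∈ I, ENNReal.ofReal (Mk N R δ S k z) = ENNReal.ofReal (MS N R δ S z) := by
    intro z
    rw [← ENNReal.ofReal_sum_of_nonneg fun k _ => Mk_nonneg N R δ S k z, sum_Mk]
  simp only [hMS] at hRDA'
  have hFp : ∀ z, ∑ k ∈ I, TF (G' k) z = ∑ W ∈ S, Fp β ψ R δ G W z := by
    intro z
    rw [Finset.sum_congr rfl fun k _ => hG'TF k z]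
    exact Finset.sum_fiberwise_of_maps_to (fun W hW => Finset.mem_image_of_mem _ hW) _
  simp only [hFp] at hRDA'
  -- upper bound
  have hup : ∑ k ∈ I, ∫⁻ z, ‖TF (G' k) z‖ₑ ^ P * ENNReal.ofReal (Mk N R δ S k z) ^ (1 - P / 2) ≤
      ENNReal.ofReal lam ^ P * (C5 : ℝ≥0∞) ^ (P / 2) * (S.card * (C6 *
        ENNReal.ofReal (R ^ (δ * ((m : ℝ) + 2)) * R ^ (((m : ℝ) + 2) / 2)))) := by
    have h1 : ∀ k ∈ I, ∫⁻ z, ‖TF (G' k) z‖ₑ ^ P * ENNReal.ofReal (Mk N R δ S k z) ^ (1 - P / 2) ≤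
        ENNReal.ofReal lam ^ P * (C5 : ℝ≥0∞) ^ (P / 2) * ∫⁻ z, ENNReal.ofReal (Mk N R δ S k z) := by
      intro k hk
      rw [← lintegral_const_mul _ (hMkm k)]
      refine lintegral_mono fun z => ?_
      have h2 : ‖TF (G' k) z‖ₑ ^ P ≤ ENNReal.ofReal lam ^ P *
          ENNReal.ofReal (Mk N R δ S k z) ^ P := by
        rw [← ENNReal.mul_rpow_of_nonneg _ _ hP0.le]
        exact ENNReal.rpow_le_rpow (hpw k z) hP0.le
      refine (mul_le_mul' h2 le_rfl).trans ?_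
      rw [mul_assoc, mul_assoc]
      refine mul_le_mul' le_rfl ?_
      rw [← ENNReal.rpow_add _ _ (hMk0 k hk z).1 (hMk0 k hk z).2,
        show P + (1 - P / 2) = P / 2 + 1 by ring,
        ENNReal.rpow_add _ _ (hMk0 k hk z).1 (hMk0 k hk z).2, ENNReal.rpow_one]
      exact mul_le_mul' (ENNReal.rpow_le_rpow (hMk R δ S k z) (by positivity)) le_rfl
    refine (Finset.sum_le_sum h1).trans ?_
    rw [← Finset.mul_sum]
    refine mul_le_mul' le_rfl ?_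
    have hwm : ∀ W : Pk m, Measurable (fun z : Z m =>
        ENNReal.ofReal (wt N (fc R δ W.1 z - zc W.2))) := by
      intro W
      have h3 : Continuous (wt N : Z m → ℝ) := (hWT1 m N).2.1
      have h4 : Continuous (Lo (ctr (sR R) W.1) (sR R) : Z m → Z m) :=
        (hLOI m _ _ hsRp).2.2.2.2.1.continuous
      have h5 : Continuous (fun z : Z m => fc R δ W.1 z - zc W.2) := by
        unfold fc
        fun_prop
      exact ENNReal.measurable_ofReal.comp (h3.comp h5).measurable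
    have h2 : ∀ k ∈ I, ∫⁻ z, ENNReal.ofReal (Mk N R δ S k z) =
        ∑ W ∈ S.filter (fun W => W.1 = k),
          ∫⁻ z, ENNReal.ofReal (wt N (fc R δ W.1 z - zc W.2)) := by
      intro k _
      rw [← lintegral_finsetSum _ fun W _ => hwm W]
      refine lintegral_congr fun z => ?_
      unfold Mk
      exact ENNReal.ofReal_sum_of_nonneg fun _ _ => (wt_pos N _).le
    rw [Finset.sum_congr rfl h2, Finset.sum_fiberwise_of_maps_to
      (fun W hW => Finset.mem_image_of_mem _ hW)]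
    calc ∑ W ∈ S, ∫⁻ z, ENNReal.ofReal (wt N (fc R δ W.1 z - zc W.2))
        ≤ ∑ W ∈ S, (C6 * ENNReal.ofReal (R ^ (δ * ((m : ℝ) + 2)) * R ^ (((m : ℝ) + 2) / 2))) :=
          Finset.sum_le_sum fun W _ => hint R δ W hR
      _ = _ := by rw [Finset.sum_const, nsmul_eq_mul]
  -- real form
  refine (hRDA'.trans (mul_le_mul' le_rfl hup)).trans ?_
  have hap : 0 ≤ a ^ P := Real.rpow_nonneg ha _
  have e5 : (C5 : ℝ≥0∞) ^ (P / 2) = ENNReal.ofReal ((C5 : ℝ) ^ (P / 2)) := by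
    rw [← ENNReal.ofReal_rpow_of_nonneg (NNReal.coe_nonneg C5) (by positivity)]; simp
  have e6 : (C6 : ℝ≥0∞) = ENNReal.ofReal (C6 : ℝ) := by simp
  have e7 : ENNReal.ofReal lam ^ P = ENNReal.ofReal (lam ^ P) :=
    ENNReal.ofReal_rpow_of_nonneg hlam0 hP0.le
  have e8 : (S.card : ℝ≥0∞) = ENNReal.ofReal (S.card : ℝ) := (ENNReal.ofReal_natCast _).symm
  have hlP : 0 ≤ lam ^ P := Real.rpow_nonneg hlam0 _
  rw [e5, e6, e7, e8, ← ENNReal.ofReal_mul (by positivity),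
    ← ENNReal.ofReal_mul (by positivity), ← ENNReal.ofReal_mul (by positivity),
    ← ENNReal.ofReal_mul (by positivity), ← ENNReal.ofReal_mul (by positivity)]
  refine ENNReal.ofReal_le_ofReal ?_
  have e9 : lam ^ P = C2 ^ P * (R ^ (δ * ((m : ℝ) + 2) / 2)) ^ P * a ^ P := by
    rw [hlam, Real.mul_rpow (by positivity) ha, Real.mul_rpow hC2.le (by positivity)]
  have hexpo : R ^ ((P + 1) / (J : ℝ)) * (R ^ (δ * ((m : ℝ) + 2) / 2)) ^ P *
        R ^ (δ * ((m : ℝ) + 2)) ≤ R ^ (lo m * δ) :=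
    expo m R δ P J hR hδ hP0.le hP6.le (by positivity) hJδ
  calc C3 * R ^ ((P + 1) / (J : ℝ)) * (lam ^ P * (C5 : ℝ) ^ (P / 2) * (S.card * (C6 *
        (R ^ (δ * ((m : ℝ) + 2)) * R ^ (((m : ℝ) + 2) / 2)))))
      = Cf * (R ^ ((P + 1) / (J : ℝ)) * (R ^ (δ * ((m : ℝ) + 2) / 2)) ^ P *
        R ^ (δ * ((m : ℝ) + 2))) * a ^ P * S.card * R ^ (((m : ℝ) + 2) / 2) := by
        rw [e9, hCf]
        ring
    _ ≤ max (8 * C1) Cf * R ^ (lo m * δ) * a ^ P * S.card * R ^ (((m : ℝ) + 2) / 2) := by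
        refine mul_le_mul_of_nonneg_right ?_ (by positivity)
        refine mul_le_mul_of_nonneg_right ?_ (by positivity)
        refine mul_le_mul_of_nonneg_right ?_ hap
        exact mul_le_mul (le_max_right _ _) hexpo (by positivity) (le_max_of_le_right hCf0)

end Pool.Agent.H45.B2.RDI
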